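import Pool.Agent.H919.FP.Sch

/-! `S_G1` for helper919 (MP_911691_ag). -/

open CategoryTheory Limits AlgebraicGeometry

namespace Pool.Agent.H720.FP

open Pool.Agent.H919.FP

section
variable {S W : Scheme.{0}} (w : W ⟶ S) (U : S.Opens) [IsOpenImmersion (w ∣_ U)]

instance inW_open : IsOpenImmersion (inW w U) :=
  inferInstanceAs (IsOpenImmersion (colimit.ι (span (w ⁻¹ᵁ U).ι (w ∣_ U)) WalkingSpan.left))

instance inU_open : IsOpenImmersion (inU w U) :=
  inferInstanceAs (IsOpenImmersion (colimit.ι (span (w ⁻¹ᵁ U).ι (w ∣_ U)) WalkingSpan.right))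

theorem inW_rho : inW w U ≫ rho w U = w := pushout.inl_desc _ _ _

theorem inU_rho : inU w U ≫ rho w U = U.ι := pushout.inr_desc _ _ _

theorem glue_cond : (w ⁻¹ᵁ U).ι ≫ inW w U = (w ∣_ U) ≫ inU w U := pushout.condition

theorem cover (z : glue w U) :
    (∃ x : W, inW w U x = z) ∨ (∃ x : (U : Scheme.{0}), inU w U x = z) := by
  obtain ⟨i, xi, h⟩ :=
    Scheme.IsLocallyDirected.ι_jointly_surjective (span (w ⁻¹ᵁ U).ι (w ∣_ U)) z
  rcases i with _ | (_ | _)
  · left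
    refine ⟨(w ⁻¹ᵁ U).ι xi, ?_⟩
    rw [← h, ← Scheme.Hom.comp_apply]
    have := colimit.w (span (w ⁻¹ᵁ U).ι (w ∣_ U)) WalkingSpan.Hom.fst
    rw [← this]
    rfl
  · exact Or.inl ⟨xi, h⟩
  · exact Or.inr ⟨xi, h⟩

theorem mem_iff (z : glue w U) : rho w U z ∈ U ↔ ∃ x : (U : Scheme.{0}), inU w U x = z := by
  constructor
  · intro hz
    rcases cover w U z with ⟨x, rfl⟩ | h
    · rw [← Scheme.Hom.comp_apply, inW_rho] at hz
      refine ⟨(w ∣_ U) ⟨x, hz⟩, ?_⟩
      rw [← Scheme.Hom.comp_apply, ← glue_cond, Scheme.Hom.comp_apply]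
      rfl
    · exact h
  · rintro ⟨x, rfl⟩
    rw [← Scheme.Hom.comp_apply, inU_rho]
    exact x.2

theorem range_eq : (inU w U).opensRange = rho w U ⁻¹ᵁ U := by
  ext z
  exact (mem_iff w U z).symm

theorem iso_rho : IsIso (rho w U ∣_ U) := by
  let e : (U : Scheme.{0}) ≅ (rho w U ⁻¹ᵁ U : Scheme.{0}) :=
    (inU w U).isoOpensRange ≪≫ Scheme.isoOfEq _ (range_eq w U)
  have he : e.hom ≫ (rho w U ∣_ U) = 𝟙 _ := by
    rw [← cancel_mono U.ι, Category.assoc, morphismRestrict_ι, Category.id_comp]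
    simp only [e, Iso.trans_hom, Category.assoc]
    rw [Scheme.isoOfEq_hom_ι_assoc, Scheme.Hom.isoOpensRange_hom_ι_assoc, inU_rho]
  have : (rho w U ∣_ U) = e.inv := by
    rw [← Category.comp_id e.inv, ← he, Iso.inv_hom_id_assoc]
  rw [this]
  infer_instance

end

theorem t_G1 : Pool.Agent.H919.FP.S_G1 := by
  intro S W w U _
  exact ⟨inferInstance, inferInstance, cover w U, mem_iff w U, iso_rho w U⟩

end Pool.Agent.H720.FP
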