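import Pool.Agent.H919.FP.Ring

/-! `S_Sm` for helper919 (MP_911691_ag). -/

open Pool.Agent.H919.FP

namespace Pool.Agent.H720.FP

open MvPolynomial in
/-- the presentation -/
noncomputable def PA : Algebra.PreSubmersivePresentation B AE (Fin 6) (Fin 4) :=
  Algebra.PreSubmersivePresentation.naive (v := relA) ![2, 3, 4, 5] (by decide)

theorem smooth_of (J : AE) (hJ : J = PA.jacobian) (δ : AE) (A : Type) [CommRing A] [Algebra AE A]
    [IsLocalization.Away δ A] [Algebra B A] [IsScalarTower B AE A] (h : J ∣ δ) :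
    Algebra.Smooth B A := by
  let Q : Algebra.PreSubmersivePresentation AE A Unit Unit :=
    Algebra.PreSubmersivePresentation.localizationAway A δ
  have hu : IsUnit (Q.comp PA).jacobian := by
    rw [Algebra.PreSubmersivePresentation.comp_jacobian_eq_jacobian_smul_jacobian, Algebra.smul_def,
      ← hJ, Algebra.PreSubmersivePresentation.localizationAway_jacobian]
    have h1 : IsUnit (algebraMap AE A δ) :=
      IsLocalization.map_units _ (⟨δ, 1, by simp⟩ : Submonoid.powers δ)
    have h2 : IsUnit (algebraMap AE A J) := isUnit_of_dvd_unit (map_dvd _ h) h1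
    exact h2.mul h1
  let P' : Algebra.SubmersivePresentation B A (Unit ⊕ Fin 6) (Unit ⊕ Fin 4) :=
    { toPreSubmersivePresentation := Q.comp PA
      jacobian_isUnit := hu }
  have := P'.isStandardSmooth
  infer_instance

theorem hom_eq (hB1 : S_B1) (ε : B →+* ZMod 2) (hε : ∀ i, ε (pB i) = 0) (b : B) (hb : ε b = 0) :
    b ∈ mI (pB) := by
  have huniq := hB1.2.2.2.2.1 (B ⧸ mI pB) (Ideal.Quotient.mk (mI pB))
    (((Ideal.Quotient.mk (mI pB)).comp (algebraMap (ZMod 2) B)).comp ε) (fun i => by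
      rw [RingHom.comp_apply, hε, map_zero, Ideal.Quotient.eq_zero_iff_mem]
      exact Ideal.subset_span ⟨i, rfl⟩)
  rw [← Ideal.Quotient.eq_zero_iff_mem, huniq, RingHom.comp_apply, hb, map_zero]

theorem ker_le (hB1 : S_B1) (ε : B →+* ZMod 2) (hε : ∀ i, ε (pB i) = 0) :
    RingHom.ker ε ≤ mI pB := fun b hb => hom_eq hB1 ε hε b hb

open MvPolynomial in
theorem map_relA (ε : B →+* ZMod 2) (hε : ∀ i, ε (pB i) = 0) (k : Fin 4) :
    map ε (relA k) = (![X 1 * X 2 - 1, X 3, X 4, X 5] : Fin 4 → MvPolynomial (Fin 6) (ZMod 2)) k := by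
  fin_cases k
  · simp [relA]
  · simp [relA, E1, up, β1, hε]
  · simp [relA, E2, up, β2, hε]
  · simp [relA, E3, up, β3, hε]

open MvPolynomial in
theorem map_det (ε : B →+* ZMod 2) (hε : ∀ i, ε (pB i) = 0) :
    map ε (PA.jacobiMatrix.det) = X 1 := by
  have h : (map (σ := Fin 6) ε).mapMatrix PA.jacobiMatrix = Matrix.diagonal ![X 1, 1, 1, 1] := by
    ext1 i k
    rw [RingHom.mapMatrix_apply, Matrix.map_apply]
    have h1 : PA.jacobiMatrix i k = pderiv ((![2, 3, 4, 5] : Fin 4 → Fin 6) i) (relA k) :=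
      Algebra.PreSubmersivePresentation.jacobiMatrix_naive _ _ _ _ _ _
    rw [h1, ← pderiv_map, map_relA ε hε]
    fin_cases i <;> fin_cases k <;> simp [Matrix.diagonal, pderiv_X, Pi.single_apply]
  rw [RingHom.map_det, h, Matrix.det_diagonal]
  simp [Fin.prod_univ_four]

open MvPolynomial in
theorem claim (hB1 : S_B1) : PA.jacobian * vA 2 - 1 ∈ mI pA := by
  obtain ⟨ε, hε⟩ := hB1.2.2.2.2.2.2
  have h1 : PA.jacobiMatrix.det * X 2 - 1 - relA 0 ∈ RingHom.ker (map (σ := Fin 6) ε) := by
    rw [RingHom.mem_ker, map_sub, map_sub, map_mul, map_det ε hε, map_relA ε hε]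
    simp
  rw [MvPolynomial.ker_map] at h1
  have h2 : Ideal.Quotient.mk (Ideal.span (Set.range relA))
      (PA.jacobiMatrix.det * X 2 - 1 - relA 0) ∈ mI pA := by
    have h3 := Ideal.mem_map_of_mem (Ideal.Quotient.mk (Ideal.span (Set.range relA))) h1
    refine (?_ : Ideal.map (Ideal.Quotient.mk (Ideal.span (Set.range relA)))
      (Ideal.map C (RingHom.ker ε)) ≤ mI pA) h3
    rw [Ideal.map_map]
    refine (Ideal.map_mono (ker_le hB1 ε hε)).trans ?_
    unfold mI
    rw [Ideal.map_span]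
    refine Ideal.span_mono ?_
    rintro _ ⟨_, ⟨i, rfl⟩, rfl⟩
    exact ⟨i, rfl⟩
  have h4 : Ideal.Quotient.mk (Ideal.span (Set.range relA)) (relA 0) = 0 :=
    Ideal.Quotient.eq_zero_iff_mem.2 (Ideal.subset_span ⟨0, rfl⟩)
  rw [map_sub, h4, sub_zero, map_sub, map_mul, map_one] at h2
  have h5 : PA.jacobian = Ideal.Quotient.mk (Ideal.span (Set.range relA)) PA.jacobiMatrix.det := by
    rw [Algebra.PreSubmersivePresentation.jacobian_eq_jacobiMatrix_det]
    rw [Algebra.Generators.algebraMap_apply]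
    generalize PA.jacobiMatrix.det = q
    change aeval (fun i => Ideal.Quotient.mk (Ideal.span (Set.range relA)) (X i)) q = _
    induction q using MvPolynomial.induction_on with
    | C a => rw [aeval_C]; rfl
    | add p q hp hq => rw [map_add, hp, hq, map_add]
    | mul_X p i hp => rw [map_mul, hp, aeval_X, map_mul]
  rw [h5]
  exact h2

theorem t_Sm (hB1 : S_B1) : S_Sm := by
  refine ⟨PA.jacobian * vA 2, claim hB1, ?_⟩
  intro δ A _ _ _ _ _ h
  exact smooth_of PA.jacobian rfl δ A (dvd_of_mul_right_dvd h)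

end Pool.Agent.H720.FP
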